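import Pool.Agent.K4H89.FR.Nat

/-!
# The convex valuation ring of a gap of an ordered field
-/

set_option autoImplicit false

namespace Pool.Agent.K4H89.FR

open Polynomial

variable {K : Type} [Field K] [LinearOrder K] [IsStrictOrderedRing K]

/-- polynomials are bounded and Lipschitz on bounded sets -/
theorem lipschitz (f : K[X]) (R : K) (hR : 0 ≤ R) :
    ∃ M : K, 0 ≤ M ∧ ∀ x y, |x| ≤ R → |y| ≤ R →
      |f.eval x| ≤ M ∧ |f.eval x - f.eval y| ≤ M * |x - y| := by
  induction f using Polynomial.induction_on' with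
  | add p q hp hq =>
    obtain ⟨M, hM0, hM⟩ := hp
    obtain ⟨N, hN0, hN⟩ := hq
    refine ⟨M + N, add_nonneg hM0 hN0, fun x y hx hy => ?_⟩
    obtain ⟨h1, h2⟩ := hM x y hx hy
    obtain ⟨h3, h4⟩ := hN x y hx hy
    rw [eval_add, eval_add]
    refine ⟨(abs_add_le _ _).trans (add_le_add h1 h3), ?_⟩
    have h5 : eval x p + eval x q - (eval y p + eval y q) =
        (eval x p - eval y p) + (eval x q - eval y q) := by ring
    rw [h5, add_mul]
    exact (abs_add_le _ _).trans (add_le_add h2 h4)
  | monomial n a =>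
    induction n with
    | zero =>
      refine ⟨|a|, abs_nonneg _, fun x y _ _ => ?_⟩
      simp only [monomial_zero_left, eval_C, sub_self, abs_zero]
      exact ⟨le_rfl, by positivity⟩
    | succ n ih =>
      obtain ⟨M, hM0, hM⟩ := ih
      refine ⟨R * M + M, by positivity, fun x y hx hy => ?_⟩
      obtain ⟨h1, h2⟩ := hM x y hx hy
      have h3 := (hM y x hy hx).1
      have e : ∀ z : K, eval z (monomial (n + 1) a) = z * eval z (monomial n a) := by
        intro z
        simp only [eval_monomial, pow_succ]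
        ring
      rw [e, e]
      constructor
      · rw [abs_mul]
        calc |x| * |eval x (monomial n a)| ≤ R * M := by gcongr
          _ ≤ R * M + M := le_add_of_nonneg_right hM0
      · have h5 : x * eval x (monomial n a) - y * eval y (monomial n a) =
            x * (eval x (monomial n a) - eval y (monomial n a)) +
              (x - y) * eval y (monomial n a) := by ring
        rw [h5]
        calc |x * (eval x (monomial n a) - eval y (monomial n a)) +
              (x - y) * eval y (monomial n a)|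
            ≤ |x| * |eval x (monomial n a) - eval y (monomial n a)| +
              |x - y| * |eval y (monomial n a)| := by
                rw [← abs_mul, ← abs_mul]
                exact abs_add_le _ _
          _ ≤ R * (M * |x - y|) + |x - y| * M := by gcongr
          _ = (R * M + M) * |x - y| := by ring

/-- the lower set of the first gap -/
def cut (f : K[X]) (a b : K) : Set K :=
  {x | ∃ d, a ≤ d ∧ d ≤ b ∧ x ≤ d ∧ ∀ y, a ≤ y → y ≤ d → f.eval y < 0}

/-- the stabilizer of a lower set -/
def stab (D : Set K) : Set K := {v | ∀ x ∈ D, x + v ∈ D ∧ x - v ∈ D}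

theorem stab_zero (D : Set K) : (0 : K) ∈ stab D := fun x hx => by simpa using hx

theorem stab_add {D : Set K} {v w : K} (hv : v ∈ stab D) (hw : w ∈ stab D) : v + w ∈ stab D := by
  intro x hx
  refine ⟨?_, ?_⟩
  · rw [← add_assoc]
    exact (hw _ (hv x hx).1).1
  · rw [← sub_sub]
    exact (hw _ (hv x hx).2).2

theorem stab_neg {D : Set K} {v : K} (hv : v ∈ stab D) : -v ∈ stab D := by
  intro x hx
  obtain ⟨h1, h2⟩ := hv x hx
  refine ⟨by rwa [← sub_eq_add_neg], by rwa [sub_neg_eq_add]⟩

theorem stab_abs {D : Set K} {v : K} : |v| ∈ stab D ↔ v ∈ stab D := by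
  rcases abs_choice v with h | h
  · rw [h]
  · rw [h]
    exact ⟨fun h => by simpa using stab_neg h, fun h => stab_neg h⟩

theorem stab_convex {D : Set K} (hD : ∀ x ∈ D, ∀ y ≤ x, y ∈ D) {v w : K} (hv : v ∈ stab D)
    (h : |w| ≤ |v|) : w ∈ stab D := by
  have hv' := stab_abs.2 hv
  intro x hx
  have h1 := (hv' x hx).1
  have h2 := (abs_le.1 h)
  exact ⟨hD _ h1 _ (by linarith), hD _ h1 _ (by linarith)⟩

/-- the multipliers of a convex subgroup -/
def multO (V : Set K) (h0 : (0 : K) ∈ V) (hadd : ∀ v ∈ V, ∀ w ∈ V, v + w ∈ V)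
    (hconv : ∀ v ∈ V, ∀ w, |w| ≤ |v| → w ∈ V) : ValuationSubring K where
  carrier := {u | ∀ v ∈ V, u * v ∈ V}
  one_mem' := fun v hv => by rwa [one_mul]
  zero_mem' := fun v hv => by rwa [zero_mul]
  mul_mem' := fun {a b} ha hb v hv => by
    rw [mul_assoc]
    exact ha _ (hb _ hv)
  add_mem' := fun {a b} ha hb v hv => by
    rw [add_mul]
    exact hadd _ (ha v hv) _ (hb v hv)
  neg_mem' := fun {a} ha v hv => hconv _ (ha v hv) _ (by rw [neg_mul, abs_neg])
  mem_or_inv_mem' := fun x => by
    rcases le_total |x| 1 with h | h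
    · left
      intro v hv
      refine hconv v hv _ ?_
      rw [abs_mul]
      exact mul_le_of_le_one_left (abs_nonneg _) h
    · right
      intro v hv
      refine hconv v hv _ ?_
      rw [abs_mul, abs_inv]
      exact mul_le_of_le_one_left (abs_nonneg _) (inv_le_one_of_one_le₀ h)

theorem natO_le_multO (V : Set K) (h0 : (0 : K) ∈ V) (hadd : ∀ v ∈ V, ∀ w ∈ V, v + w ∈ V)
    (hconv : ∀ v ∈ V, ∀ w, |w| ≤ |v| → w ∈ V) : natO ≤ multO V h0 hadd hconv := by
  rintro u ⟨n, hn⟩ v hv
  have h1 : ∀ m : ℕ, (m : K) * v ∈ V := by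
    intro m
    induction m with
    | zero => simpa using h0
    | succ m ih =>
      push_cast
      rw [add_mul, one_mul]
      exact hadd _ ih _ hv
  refine hconv _ (h1 n) _ ?_
  rw [abs_mul, abs_mul, Nat.abs_cast]
  gcongr

/-- If a polynomial which changes sign avoids a neighbourhood of zero, then there is a convex
valuation ring given by the gap. -/
theorem gap (f : K[X]) (a b ε : K) (hab : a < b) (ha : f.eval a < 0) (hb : 0 < f.eval b)
    (hε : 0 < ε) (hgap : ∀ x, a < x → x < b → f.eval x ≤ -ε ∨ ε ≤ f.eval x) :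
    ∃ O : ValuationSubring K, natO ≤ O ∧ O ≠ ⊤ ∧
      ∀ u : K, u ∈ O ↔ ∀ v ∈ stab (cut f a b), u * v ∈ stab (cut f a b) := by
  have hD : ∀ x ∈ cut f a b, ∀ y ≤ x, y ∈ cut f a b := by
    rintro x ⟨d, h1, h2, h3, h4⟩ y hy
    exact ⟨d, h1, h2, hy.trans h3, h4⟩
  refine ⟨multO (stab (cut f a b)) (stab_zero _) (fun v hv w hw => stab_add hv hw)
    (fun v hv w hw => stab_convex hD hv hw), natO_le_multO _ _ _ _, ?_, fun u => Iff.rfl⟩
  -- the constants
  set ε' := min ε (min (-(f.eval a)) (f.eval b)) with hε'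
  have hε'0 : 0 < ε' := lt_min hε (lt_min (neg_pos.2 ha) hb)
  have h1 : ε' ≤ ε := min_le_left _ _
  have h2 : ε' ≤ -(f.eval a) := (min_le_right _ _).trans (min_le_left _ _)
  have h3 : ε' ≤ f.eval b := (min_le_right _ _).trans (min_le_right _ _)
  have hgap' : ∀ x, a ≤ x → x ≤ b → f.eval x ≤ -ε' ∨ ε' ≤ f.eval x := by
    intro x hx1 hx2
    rcases hx1.eq_or_lt with rfl | hx1
    · left
      linarith
    rcases hx2.eq_or_lt with rfl | hx2
    · right
      exact h3
    rcases hgap x hx1 hx2 with h | h
    · left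
      linarith
    · right
      linarith
  obtain ⟨M, hM0, hM⟩ := lipschitz f (max |a| |b|) ((abs_nonneg a).trans (le_max_left _ _))
  have hbd : ∀ x, a ≤ x → x ≤ b → |x| ≤ max |a| |b| := fun x hx1 hx2 => by
    rw [abs_le]
    constructor
    · have := neg_abs_le a
      have := le_max_left |a| |b|
      linarith
    · have := le_abs_self b
      have := le_max_right |a| |b|
      linarith
  set δ := ε' / (M + 1) with hδ
  have hM1 : 0 < M + 1 := by linarith
  have hδ0 : 0 < δ := div_pos hε'0 hM1
  have hMδ : M * δ ≤ ε' := by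
    rw [hδ, mul_div_assoc', div_le_iff₀ hM1]
    nlinarith
  have hstab : δ ∈ stab (cut f a b) := by
    intro x hx
    refine ⟨?_, hD x hx _ (by linarith)⟩
    obtain ⟨d, h4, h5, h6, h7⟩ := hx
    have hfd : f.eval d ≤ -ε' := by
      rcases hgap' d h4 h5 with h | h
      · exact h
      · have := h7 d h4 le_rfl
        linarith
    have hnear : ∀ y, d ≤ y → y ≤ b → y ≤ d + δ → f.eval y ≤ 0 := by
      intro y hy1 hy2 hy3
      have h8 := (hM y d (hbd y (h4.trans hy1) hy2) (hbd d h4 h5)).2
      have h9 : |y - d| ≤ δ := by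
        rw [abs_of_nonneg (by linarith)]
        linarith
      have h10 : f.eval y - f.eval d ≤ M * δ :=
        (le_abs_self _).trans (h8.trans (mul_le_mul_of_nonneg_left h9 hM0))
      linarith
    have hdb : d + δ ≤ b := by
      by_contra hcon
      push Not at hcon
      have := hnear b h5 le_rfl hcon.le
      linarith
    refine ⟨d + δ, by linarith, hdb, by linarith, fun y hy1 hy2 => ?_⟩
    rcases le_total y d with h | h
    · exact h7 y hy1 h
    · have h8 := hnear y h (hy2.trans hdb) hy2
      rcases hgap' y hy1 (hy2.trans hdb) with h | h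
      · linarith
      · linarith
  have hnot : b - a ∉ stab (cut f a b) := by
    intro h
    have haD : a ∈ cut f a b := ⟨a, le_rfl, hab.le, le_rfl, fun y hy1 hy2 => by
      rw [le_antisymm hy2 hy1]
      exact ha⟩
    obtain ⟨d, h4, h5, h6, h7⟩ := (h a haD).1
    rw [add_sub_cancel] at h6
    have := h7 b hab.le h6
    linarith
  intro htop
  have h4 : (b - a) / δ ∈ (⊤ : ValuationSubring K) := trivial
  rw [← htop] at h4
  have h5 := h4 δ hstab
  rw [div_mul_cancel₀ _ hδ0.ne'] at h5
  exact hnot h5

end Pool.Agent.K4H89.FR
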