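import Pool.Agent.K4H89.FR.Cut
import Pool.Agent.K4H89.J.Dfb

/-!
# Definability of the valuation ring of a gap
-/

set_option autoImplicit false

namespace Pool.Agent.K4H89.FR

open Polynomial FirstOrder FirstOrder.Language Set
open Pool.Agent.K4H89.J

section

variable {K : Type} [Field K] [FirstOrder.Ring.CompatibleRing K]

/-- definable sets are given by formulas with parameters -/
theorem formula_of_ds {S : Set K} (hS : DS {x : Fin 1 → K | x 0 ∈ S}) :
    ∃ (p : ℕ) (ψ : FirstOrder.Language.ring.Formula (Fin 1 ⊕ Fin p)) (c : Fin p → K),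
      ∀ x : K, x ∈ S ↔ ψ.Realize (Sum.elim (fun _ => x) c) := by
  obtain ⟨A, -, hA⟩ := definable_iff_finitely_definable.1 hS
  obtain ⟨φ, hφ⟩ := definable_iff_exists_formula_sum.1 hA
  let e : (A : Set K) ≃ Fin A.card := A.equivFin
  refine ⟨A.card, φ.relabel (Sum.elim (fun x => Sum.inr (e x)) Sum.inl),
    fun j => (e.symm j : K), fun x => ?_⟩
  have h1 : x ∈ S ↔ (fun _ : Fin 1 => x) ∈ {x : Fin 1 → K | x 0 ∈ S} := Iff.rfl
  rw [h1, hφ, Formula.realize_relabel, Set.mem_ofPred_eq, iff_iff_eq]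
  congr 1
  funext y
  rcases y with y | y
  · simp
  · simp

theorem ds_of_formula {S : Set K} (hS : ∃ (p : ℕ)
    (ψ : FirstOrder.Language.ring.Formula (Fin 1 ⊕ Fin p)) (c : Fin p → K),
      ∀ x : K, x ∈ S ↔ ψ.Realize (Sum.elim (fun _ => x) c)) : DS {x : Fin 1 → K | x 0 ∈ S} := by
  obtain ⟨p, ψ, c, h⟩ := hS
  rw [DS, definable_iff_exists_formula_sum]
  refine ⟨ψ.relabel (Sum.elim Sum.inr (fun i => Sum.inl ⟨c i, trivial⟩)), ?_⟩
  ext x
  simp only [Set.mem_ofPred_eq]
  rw [h, Formula.realize_relabel, iff_iff_eq]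
  congr 1
  funext y
  rcases y with y | y
  · simp [Subsingleton.elim y 0]
  · simp

theorem DF.pow' {α : Type} {f : (α → K) → K} (hf : DF f) (m : ℕ) : DF (fun v => f v ^ m) := by
  induction m with
  | zero => simpa using DF.const (1 : K)
  | succ m ih =>
    simp only [pow_succ]
    exact ih.mul hf

theorem DF.sub' {α : Type} {f g : (α → K) → K} (hf : DF f) (hg : DF g) :
    DF (fun v => f v - g v) := by
  have h1 : (fun v => f v - g v) = fun v => f v + (-1 : K) * g v := by
    funext v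
    ring
  rw [h1]
  exact hf.add ((DF.const _).mul hg)

theorem DF.eval {α : Type} (f : K[X]) {g : (α → K) → K} (hg : DF g) :
    DF (fun v => f.eval (g v)) := by
  simp only [eval_eq_sum_range]
  exact DF.sum _ fun i _ => (DF.const _).mul (DF.pow' hg i)

theorem DS.forall1 {α : Type} {P : (α → K) → K → Prop}
    (hP : DS {w : α ⊕ Fin 1 → K | P (fun i => w (Sum.inl i)) (w (Sum.inr 0))}) :
    DS {v | ∀ u, P v u} := by
  have h1 : DS {v : α → K | ¬ ∃ u : Fin 1 → K, ¬ P v (u 0)} := DS.not (DS.ex (DS.not hP))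
  convert h1 using 1
  ext v
  simp only [Set.mem_ofPred_eq, not_exists, not_not]
  exact ⟨fun h u => h (u 0), fun h u => h fun _ => u⟩

theorem DS.exists1 {α : Type} {P : (α → K) → K → Prop}
    (hP : DS {w : α ⊕ Fin 1 → K | P (fun i => w (Sum.inl i)) (w (Sum.inr 0))}) :
    DS {v | ∃ u, P v u} := by
  have h1 : DS {v : α → K | ∃ u : Fin 1 → K, P v (u 0)} := DS.ex hP
  convert h1 using 1
  ext v
  simp only [Set.mem_ofPred_eq]
  exact ⟨fun ⟨u, h⟩ => ⟨fun _ => u, h⟩, fun ⟨u, h⟩ => ⟨u 0, h⟩⟩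

theorem DS.imp {α : Type} {P Q : (α → K) → Prop} (hP : DS {v | P v}) (hQ : DS {v | Q v}) :
    DS {v | P v → Q v} := by
  have h1 : DS {v : α → K | ¬ (P v ∧ ¬ Q v)} := DS.not (DS.and hP (DS.not hQ))
  convert h1 using 1
  ext v
  simp only [Set.mem_ofPred_eq]
  tauto

end

section

variable {K : Type} [Field K] [LinearOrder K] [IsStrictOrderedRing K]
  [FirstOrder.Ring.CompatibleRing K]

/-- the ordering is definable with parameters in the ring language -/
def DefOrd (K : Type) [Field K] [LinearOrder K] [FirstOrder.Ring.CompatibleRing K] : Prop :=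
  DS {x : Fin 1 → K | 0 ≤ x 0}

theorem DS.le {α : Type} (h : DefOrd K) {f g : (α → K) → K} (hf : DF f) (hg : DF g) :
    DS {v | f v ≤ g v} := by
  have h1 := DS.preimage (F := fun v => fun _ : Fin 1 => g v - f v) (fun _ => DF.sub' hg hf) h
  convert h1 using 1
  ext v
  simp only [Set.mem_ofPred_eq, Set.mem_preimage, sub_nonneg]

theorem DS.lt {α : Type} (h : DefOrd K) {f g : (α → K) → K} (hf : DF f) (hg : DF g) :
    DS {v | f v < g v} := by
  have h1 := DS.not (DS.le h hg hf)
  convert h1 using 1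
  ext v
  simp only [Set.mem_ofPred_eq, not_le]

theorem ds_cut (h : DefOrd K) (f : K[X]) (a b : K) {α : Type} [Finite α] {g : (α → K) → K}
    (hg : DF g) : DS {v | g v ∈ cut f a b} := by
  have h1 : DS {x : Fin 1 → K | x 0 ∈ cut f a b} := by
    show DS {x : Fin 1 → K | ∃ d, a ≤ d ∧ d ≤ b ∧ x 0 ≤ d ∧ ∀ y, a ≤ y → y ≤ d → f.eval y < 0}
    refine DS.exists1 ?_
    refine DS.and (DS.le h (DF.const _) (DF.proj _)) (DS.and (DS.le h (DF.proj _) (DF.const _))
      (DS.and (DS.le h (DF.proj _) (DF.proj _)) ?_))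
    refine DS.forall1 ?_
    exact DS.imp (DS.le h (DF.const _) (DF.proj _)) (DS.imp (DS.le h (DF.proj _) (DF.proj _))
      (DS.lt h (DF.eval f (DF.proj _)) (DF.const _)))
  exact DS.preimage (F := fun v => fun _ : Fin 1 => g v) (fun _ => hg) h1

theorem ds_stab (h : DefOrd K) (f : K[X]) (a b : K) {α : Type} [Finite α] {g : (α → K) → K}
    (hg : DF g) : DS {v | g v ∈ stab (cut f a b)} := by
  have h1 : DS {x : Fin 1 → K | x 0 ∈ stab (cut f a b)} := by
    show DS {x : Fin 1 → K | ∀ y, y ∈ cut f a b → y + x 0 ∈ cut f a b ∧ y - x 0 ∈ cut f a b}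
    refine DS.forall1 ?_
    exact DS.imp (ds_cut h f a b (DF.proj _)) (DS.and
      (ds_cut h f a b ((DF.proj _).add (DF.proj _)))
      (ds_cut h f a b (DF.sub' (DF.proj _) (DF.proj _))))
  exact DS.preimage (F := fun v => fun _ : Fin 1 => g v) (fun _ => hg) h1

/-- If the ordering is definable and a polynomial which changes sign avoids a neighbourhood of
zero, then a nontrivial convex valuation ring is definable. -/
theorem definable_gap (h : DefOrd K) (f : K[X]) (a b ε : K) (hab : a < b) (ha : f.eval a < 0)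
    (hb : 0 < f.eval b) (hε : 0 < ε)
    (hgap : ∀ x, a < x → x < b → f.eval x ≤ -ε ∨ ε ≤ f.eval x) :
    ∃ O : ValuationSubring K, natO ≤ O ∧ O ≠ ⊤ ∧ NV.Definable O := by
  obtain ⟨O, h1, h2, h3⟩ := gap f a b ε hab ha hb hε hgap
  refine ⟨O, h1, h2, ?_⟩
  apply formula_of_ds (S := (O : Set K))
  have h4 : DS {x : Fin 1 → K | ∀ v, v ∈ stab (cut f a b) → x 0 * v ∈ stab (cut f a b)} := by
    refine DS.forall1 ?_
    exact DS.imp (ds_stab h f a b (DF.proj _)) (ds_stab h f a b ((DF.proj _).mul (DF.proj _)))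
  convert h4 using 1
  ext x
  exact h3 (x 0)

end

end Pool.Agent.K4H89.FR
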