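import Pool.Agent.R614.NF.Emb
import Mathlib

/-!
# Orderings in which a given element is negative
-/

set_option autoImplicit false

namespace Pool.Agent.K4H89.FR

open Pool.Agent.R614.NF (FieldOrder)

/-- preorderings -/
structure IsPre {F : Type*} [Field F] (P : Set F) : Prop where
  add : ∀ x ∈ P, ∀ y ∈ P, x + y ∈ P
  mul : ∀ x ∈ P, ∀ y ∈ P, x * y ∈ P
  sq : ∀ x : F, x * x ∈ P
  neg_one : (-1 : F) ∉ P

theorem IsPre.zero {F : Type*} [Field F] {P : Set F} (h : IsPre P) : (0 : F) ∈ P := by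
  simpa using h.sq 0

theorem IsPre.one {F : Type*} [Field F] {P : Set F} (h : IsPre P) : (1 : F) ∈ P := by
  simpa using h.sq 1

theorem exists_maximal_pre {F : Type*} [Field F] {P0 : Set F} (h0 : IsPre P0) :
    ∃ P : Set F, P0 ⊆ P ∧ IsPre P ∧ ∀ x, x ∈ P ∨ -x ∈ P := by
  obtain ⟨P, hP0, hP⟩ := zorn_subset_nonempty {P : Set F | IsPre P} (by
    intro c hc hch hne
    refine ⟨⋃₀ c, ⟨?_, ?_, ?_, ?_⟩, fun s hs => Set.subset_sUnion_of_mem hs⟩
    · rintro x ⟨s, hs, hxs⟩ y ⟨t, ht, hyt⟩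
      rcases hch.total hs ht with hst | hst
      · exact ⟨t, ht, (hc ht).add x (hst hxs) y hyt⟩
      · exact ⟨s, hs, (hc hs).add x hxs y (hst hyt)⟩
    · rintro x ⟨s, hs, hxs⟩ y ⟨t, ht, hyt⟩
      rcases hch.total hs ht with hst | hst
      · exact ⟨t, ht, (hc ht).mul x (hst hxs) y hyt⟩
      · exact ⟨s, hs, (hc hs).mul x hxs y (hst hyt)⟩
    · intro x
      obtain ⟨s, hs⟩ := hne
      exact ⟨s, hs, (hc hs).sq x⟩
    · rintro ⟨s, hs, hxs⟩
      exact (hc hs).neg_one hxs) _ h0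
  have hpre : IsPre P := hP.prop
  refine ⟨P, hP0, hpre, ?_⟩
  have key : ∀ x : F, x ∉ P → ∃ p ∈ P, ∃ q ∈ P, (-1 : F) = p + x * q := by
    intro x hx
    by_contra hcon
    push Not at hcon
    have hQ : IsPre {z : F | ∃ p ∈ P, ∃ q ∈ P, z = p + x * q} := by
      refine ⟨?_, ?_, ?_, ?_⟩
      · rintro a ⟨p, hp, q, hq, rfl⟩ b ⟨p', hp', q', hq', rfl⟩
        exact ⟨p + p', hpre.add _ hp _ hp', q + q', hpre.add _ hq _ hq', by ring⟩
      · rintro a ⟨p, hp, q, hq, rfl⟩ b ⟨p', hp', q', hq', rfl⟩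
        refine ⟨p * p' + x * x * (q * q'), hpre.add _ (hpre.mul _ hp _ hp') _
          (hpre.mul _ (hpre.sq x) _ (hpre.mul _ hq _ hq')), p * q' + p' * q,
          hpre.add _ (hpre.mul _ hp _ hq') _ (hpre.mul _ hp' _ hq), by ring⟩
      · intro a
        exact ⟨a * a, hpre.sq a, 0, hpre.zero, by ring⟩
      · rintro ⟨p, hp, q, hq, hpq⟩
        exact hcon p hp q hq hpq
    have hsub : P ⊆ {z : F | ∃ p ∈ P, ∃ q ∈ P, z = p + x * q} :=
      fun z hz => ⟨z, hz, 0, hpre.zero, by ring⟩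
    have := hP.le_of_ge hQ hsub
    exact hx (this ⟨0, hpre.zero, 1, hpre.one, by ring⟩)
  intro x
  by_contra hcon
  push Not at hcon
  obtain ⟨p, hp, q, hq, h1⟩ := key x hcon.1
  obtain ⟨p', hp', q', hq', h2⟩ := key (-x) hcon.2
  apply hpre.neg_one
  have e : (-1 : F) = x * x * (q * q') + (p + p') + p * p' := by
    have e1 : x * q = -1 - p := by rw [h1]; ring
    have e2 : x * q' = 1 + p' := by linear_combination h2
    have e3 : (x * q) * (x * q') = (-1 - p) * (1 + p') := by rw [e1, e2]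
    linear_combination (-1 : F) * e3
  rw [e]
  exact hpre.add _ (hpre.add _ (hpre.mul _ (hpre.mul _ (hpre.sq x) _ (hpre.one)) _
    (hpre.mul _ hq _ hq') |> fun h => by simpa using h) _
    (hpre.add _ hp _ hp')) _ (hpre.mul _ hp _ hp')

/-- the ordering of a maximal preordering -/
theorem exists_order_of {F : Type} [Field F] {P : Set F} (hpre : IsPre P)
    (htot : ∀ x, x ∈ P ∨ -x ∈ P) : ∃ o : FieldOrder F, ∀ x, o.le 0 x ↔ x ∈ P := by
  classical
  let C : RingCone F :=
    { carrier := P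
      mul_mem' := fun {a b} ha hb => hpre.mul a ha b hb
      one_mem' := hpre.one
      add_mem' := fun {a b} ha hb => hpre.add a ha b hb
      zero_mem' := hpre.zero
      eq_zero_of_mem_of_neg_mem' := by
        intro a ha hb
        by_contra hne
        apply hpre.neg_one
        have e : (-1 : F) = a * -a * (a⁻¹ * a⁻¹) := by field_simp
        rw [e]
        exact hpre.mul _ (hpre.mul _ ha _ hb) _ (hpre.sq _) }
  haveI : HasMemOrNegMem C := ⟨fun a => htot a⟩
  letI : LinearOrder F := LinearOrder.mkOfAddGroupCone C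
  haveI h1 : IsOrderedRing F := IsOrderedRing.mkOfCone C
  refine ⟨{ toLinearOrder := inferInstance, ord := IsOrderedRing.toIsStrictOrderedRing F },
    fun x => ?_⟩
  show x - 0 ∈ P ↔ x ∈ P
  rw [sub_zero]

/-- An element which is not a sum of squares is negative in some ordering. -/
theorem exists_neg_order {F : Type} [Field F] {a : F} (hne : ¬ IsSumSq (-1 : F))
    (ha : ¬ IsSumSq a) : ∃ o : FieldOrder F, ¬ o.le 0 a := by
  have h2 : (2 : F) ≠ 0 := by
    intro h
    apply hne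
    have : (-1 : F) = 1 * 1 := by linear_combination (-1 : F) * h
    rw [this]
    exact IsSumSq.mul_self 1
  have hpre : IsPre {z : F | ∃ p, IsSumSq p ∧ ∃ q, IsSumSq q ∧ z = p - a * q} := by
    refine ⟨?_, ?_, ?_, ?_⟩
    · rintro z ⟨p, hp, q, hq, rfl⟩ w ⟨p', hp', q', hq', rfl⟩
      exact ⟨p + p', hp.add hp', q + q', hq.add hq', by ring⟩
    · rintro z ⟨p, hp, q, hq, rfl⟩ w ⟨p', hp', q', hq', rfl⟩
      exact ⟨p * p' + a * a * (q * q'), (hp.mul hp').add ((IsSumSq.mul_self a).mul (hq.mul hq')),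
        p * q' + p' * q, (hp.mul hq').add (hp'.mul hq), by ring⟩
    · intro x
      exact ⟨x * x, IsSumSq.mul_self x, 0, IsSumSq.zero, by ring⟩
    · rintro ⟨p, hp, q, hq, h⟩
      by_cases hq0 : q = 0
      · apply hne
        rw [h, hq0]
        simpa using hp
      · apply ha
        have e : a = (1 * 1 + p) * (q * (q⁻¹ * q⁻¹)) := by
          field_simp
          linear_combination h
        rw [e]
        exact ((IsSumSq.mul_self 1).add hp).mul (hq.mul (IsSumSq.mul_self _))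
  obtain ⟨P, hsub, hP, htot⟩ := exists_maximal_pre hpre
  obtain ⟨o, ho⟩ := exists_order_of hP htot
  refine ⟨o, fun h => ?_⟩
  rw [ho] at h
  have h1 : -a ∈ P := hsub ⟨0, IsSumSq.zero, 1, by simpa using IsSumSq.mul_self (1 : F), by ring⟩
  have ha0 : a ≠ 0 := by
    rintro rfl
    exact ha IsSumSq.zero
  apply hP.neg_one
  have e : (-1 : F) = a * -a * (a⁻¹ * a⁻¹) := by field_simp
  rw [e]
  exact hP.mul _ (hP.mul _ h _ h1) _ (hP.sq _)

end Pool.Agent.K4H89.FR
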