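import Pool.Agent.K4H89.FR.Ultra
import Pool.Agent.K4H89.FR.Exist
import Pool.Agent.R492.DS.S1

/-!
# Orderings of NIP fields
-/

set_option autoImplicit false

namespace Pool.Agent.K4H89.FR

open FirstOrder FirstOrder.Language Polynomial
open Pool.Agent.R614.NF (FieldOrder)
open Pool.Agent.R492.DV (Tight)
open Pool.Agent.W882.Nip3 Pool.Agent.K4H89.NV Pool.Agent.K4H89.J

/-- the ordering is definable with parameters in the language of rings -/
def DefinableOrder {K : Type} [Field K] [FirstOrder.Ring.CompatibleRing K] (o : FieldOrder K) :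
    Prop :=
  ∃ (p : ℕ) (ψ : FirstOrder.Language.ring.Formula (Fin 1 ⊕ Fin p)) (c : Fin p → K),
    ∀ x : K, o.le 0 x ↔ ψ.Realize (Sum.elim (fun _ => x) c)

/-- the valuation ring is convex for the ordering -/
def Convex {K : Type} [Field K] (O : ValuationSubring K) (o : FieldOrder K) : Prop :=
  ∀ x y : K, o.le 0 x → o.le x y → y ∈ O → x ∈ O

/-- every polynomial which changes sign between `a` and `b` has values of arbitrarily small
absolute value between `a` and `b` -/
def ApproxRoots {K : Type} [Field K] (o : FieldOrder K) : Prop :=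
  ∀ (f : K[X]) (a b ε : K), o.lt a b → o.lt (f.eval a) 0 → o.lt 0 (f.eval b) → o.lt 0 ε →
    ∃ x, o.lt a x ∧ o.lt x b ∧ o.lt (-ε) (f.eval x) ∧ o.lt (f.eval x) ε

/-- an ordering which is not tight has a definable convex valuation ring -/
theorem convex_of_not_tight {K : Type} [Field K] [FirstOrder.Ring.CompatibleRing K]
    (hK : FewPlaces K) (o : FieldOrder K) (ho : ¬ Tight o) :
    ∃ O : ValuationSubring K, O ≠ ⊤ ∧ Convex O o ∧ NV.Definable O := by
  letI := o.toLinearOrder
  haveI := o.ord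
  have h1 : ∃ t : K, NotDivisible (natO : ValuationSubring K) 2 t := by
    by_contra hcon
    push Not at hcon
    exact ho fun x hx => tight_of_divisible hcon x hx
  obtain ⟨O, h2, h3, h4⟩ := coarse_branching K hK natO Nat.prime_two
    ⟨h1, Or.inl ⟨2, two_ne_zero, dvd_rfl, hasSepExt_natO⟩⟩
  exact ⟨O, h3, fun x y hx hxy hy => convex_of_le h2 hx hxy hy, h4⟩

/-- a definable ordering without definable convex valuation rings is dense in the real closure -/
theorem approx_of_definable {K : Type} [Field K] [FirstOrder.Ring.CompatibleRing K]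
    (o : FieldOrder K) (ho : DefinableOrder o)
    (h : ¬ ∃ O : ValuationSubring K, O ≠ ⊤ ∧ Convex O o ∧ NV.Definable O) : ApproxRoots o := by
  letI := o.toLinearOrder
  haveI := o.ord
  intro f a b ε hab ha hb hε
  by_contra hcon
  apply h
  have hdef : DefOrd K := ds_of_formula (S := {x : K | o.le 0 x}) ho
  obtain ⟨O, h1, h2, h3⟩ := definable_gap hdef f a b ε hab ha hb hε (by
    intro x hx1 hx2
    by_contra hc
    push Not at hc
    exact hcon ⟨x, hx1, hx2, hc.1, hc.2⟩)
  exact ⟨O, h2, fun x y hx hxy hy => convex_of_le h1 hx hxy hy, h3⟩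

theorem dichotomy {K : Type} [Field K] [FirstOrder.Ring.CompatibleRing K]
    (hK : NIPField K ∨ (∃ n, NIPnField n K) ∨ NTP2Field K) (o : FieldOrder K) :
    (∃ O : ValuationSubring K, O ≠ ⊤ ∧ Convex O o ∧ NV.Definable O) ∨
      (DefinableOrder o ∧ ApproxRoots o) := by
  by_cases h : ∃ O : ValuationSubring K, O ≠ ⊤ ∧ Convex O o ∧ NV.Definable O
  · exact Or.inl h
  · right
    have ht : Tight o := by
      by_contra hnt
      exact h (convex_of_not_tight (fewPlaces_of K hK) o hnt)
    have hdef : DefinableOrder o :=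
      (Pool.Agent.R492.DV.ord_main Pool.Agent.R492.DV.kueker K hK).1 o ht
    exact ⟨hdef, approx_of_definable o hdef h⟩

/-- a positive element is near a square -/
theorem near_square {K : Type} [Field K] [LinearOrder K] [IsStrictOrderedRing K]
    (ho : ∀ (f : K[X]) (a b ε : K), a < b → f.eval a < 0 → 0 < f.eval b → 0 < ε →
      ∃ x, a < x ∧ x < b ∧ -ε < f.eval x ∧ f.eval x < ε)
    (O : ValuationSubring K) (h : ∀ x y : K, 0 ≤ x → x ≤ y → y ∈ O → x ∈ O) (z : K) (hz : z ∉ O)
    (a : K) (ha : 0 < a) : ∃ x : K, x ^ 2 / a - 1 ≠ 0 → (x ^ 2 / a - 1)⁻¹ ∉ O := by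
  obtain ⟨δ, hδ0, hδ⟩ : ∃ δ : K, 0 < δ ∧ δ⁻¹ ∉ O := by
    have hz0 : z ≠ 0 := by
      rintro rfl
      exact hz O.zero_mem
    rcases lt_or_gt_of_ne hz0 with h1 | h1
    · refine ⟨(-z)⁻¹, inv_pos.2 (neg_pos.2 h1), ?_⟩
      rw [inv_inv]
      intro h2
      exact hz (by simpa using O.neg_mem _ h2)
    · exact ⟨z⁻¹, inv_pos.2 h1, by rwa [inv_inv]⟩
  obtain ⟨x, -, -, hx1, hx2⟩ := ho (X ^ 2 - C a) 0 (1 + a) (a * δ) (by positivity) (by
    simp only [eval_sub, eval_pow, eval_X, eval_C]
    nlinarith) (by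
    simp only [eval_sub, eval_pow, eval_X, eval_C]
    nlinarith) (mul_pos ha hδ0)
  simp only [eval_sub, eval_pow, eval_X, eval_C] at hx1 hx2
  refine ⟨x, fun hw0 hwO => hδ ?_⟩
  set w := x ^ 2 / a - 1 with hw
  have e1 : x ^ 2 - a = a * w := by
    rw [hw]
    field_simp
  rw [e1] at hx1 hx2
  have h5 : |w| < δ := by
    rw [abs_lt]
    constructor
    · by_contra hc
      push Not at hc
      have := mul_le_mul_of_nonneg_left hc ha.le
      linarith
    · exact lt_of_mul_lt_mul_left hx2 ha.le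
  have h6 : |w|⁻¹ ∈ O := by
    rcases abs_choice w with h7 | h7
    · rwa [h7]
    · rw [h7, inv_neg]
      exact O.neg_mem _ hwO
  exact h δ⁻¹ |w|⁻¹ (inv_nonneg.2 hδ0.le) (inv_anti₀ (abs_pos.2 hw0) h5.le) h6

/-- for a convex valuation ring elements at most `-1` are not small -/
theorem not_small {K : Type} [Field K] [LinearOrder K] [IsStrictOrderedRing K]
    (O : ValuationSubring K) (h : ∀ x y : K, 0 ≤ x → x ≤ y → y ∈ O → x ∈ O) (a x : K) (ha : a < 0) :
    x ^ 2 / a - 1 ≠ 0 ∧ (x ^ 2 / a - 1)⁻¹ ∈ O := by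
  have h3 : x ^ 2 / a - 1 ≤ -1 := by
    have : x ^ 2 / a ≤ 0 := div_nonpos_of_nonneg_of_nonpos (sq_nonneg x) ha.le
    linarith
  have h4 : -(x ^ 2 / a - 1)⁻¹ ∈ O := by
    refine h (-(x ^ 2 / a - 1)⁻¹) 1 ?_ ?_ O.one_mem
    · rw [← inv_neg]
      exact inv_nonneg.2 (by linarith)
    · rw [← inv_neg]
      exact inv_le_one_of_one_le₀ (by linarith)
  exact ⟨by linarith, by simpa using O.neg_mem _ h4⟩

/-- two orderings which are dense in the real closures are independent -/
theorem eq_of_convex {K : Type} [Field K] (o o' : FieldOrder K) (ho : ApproxRoots o)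
    (O : ValuationSubring K) (h : Convex O o) (h' : Convex O o') (hO : O ≠ ⊤) (a : K)
    (ha : o.lt 0 a) : o'.le 0 a := by
  obtain ⟨z, hz⟩ : ∃ z : K, z ∉ O := by
    by_contra hcon
    push Not at hcon
    exact hO (by ext x; exact ⟨fun _ => trivial, fun _ => hcon x⟩)
  obtain ⟨x, hx⟩ := @near_square K _ o.toLinearOrder o.ord ho O h z hz a ha
  by_contra hneg
  have h1 : o'.lt a 0 := by
    letI := o'.toLinearOrder
    exact not_le.1 hneg
  obtain ⟨h2, h3⟩ := @not_small K _ o'.toLinearOrder o'.ord O h' a x h1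
  exact hx h2 h3

theorem order_eq {K : Type} [Field K] {o o' : FieldOrder K}
    (h : ∀ a, o.lt 0 a → o'.le 0 a) : o = o' := by
  apply Pool.Agent.R492.DV.ord_ext
  have h1 : ∀ a, o.le 0 a → o'.le 0 a := by
    intro a ha
    letI := o.toLinearOrder
    haveI := o.ord
    rcases (show (0 : K) ≤ a from ha).eq_or_lt with h2 | h2
    · rw [← h2]
      exact o'.le_refl 0
    · exact h a h2
  ext a
  refine ⟨fun ha => h1 a ha, fun ha => ?_⟩
  by_contra hneg
  have h2 : o.lt a 0 := by
    letI := o.toLinearOrder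
    exact not_le.1 hneg
  have h3 : o.le 0 (-a) := by
    letI := o.toLinearOrder
    haveI := o.ord
    exact (neg_pos.2 (show a < 0 from h2)).le
  have h4 := h1 _ h3
  have h5 : a = 0 := by
    letI := o'.toLinearOrder
    haveI := o'.ord
    exact le_antisymm (neg_nonneg.1 h4) ha
  rw [h5] at hneg
  exact hneg (o.le_refl 0)

end Pool.Agent.K4H89.FR
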