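import Pool.Agent.K4H89.NV.Final

/-!
# The natural valuation ring of an ordered field
-/

set_option autoImplicit false

namespace Pool.Agent.K4H89.FR

open Polynomial Pool.Agent.K4H89.NV Pool.Agent.TH686.NF

section

variable {K : Type} [Field K] [LinearOrder K] [IsStrictOrderedRing K]

/-- the elements bounded by natural numbers -/
def natO : ValuationSubring K where
  carrier := {x | ∃ n : ℕ, |x| ≤ n}
  one_mem' := ⟨1, by simp⟩
  zero_mem' := ⟨0, by simp⟩
  mul_mem' := by
    rintro x y ⟨m, hm⟩ ⟨n, hn⟩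
    refine ⟨m * n, ?_⟩
    rw [abs_mul]
    push_cast
    exact mul_le_mul hm hn (abs_nonneg _) (Nat.cast_nonneg _)
  add_mem' := by
    rintro x y ⟨m, hm⟩ ⟨n, hn⟩
    refine ⟨m + n, ?_⟩
    push_cast
    exact (abs_add_le _ _).trans (add_le_add hm hn)
  neg_mem' := by
    rintro x ⟨m, hm⟩
    exact ⟨m, by rwa [abs_neg]⟩
  mem_or_inv_mem' := by
    intro x
    rcases le_total |x| 1 with h | h
    · exact Or.inl ⟨1, by simpa using h⟩
    · refine Or.inr ⟨1, ?_⟩
      rw [abs_inv, Nat.cast_one]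
      exact inv_le_one_of_one_le₀ h

theorem mem_natO {x : K} : x ∈ (natO : ValuationSubring K) ↔ ∃ n : ℕ, |x| ≤ n := Iff.rfl

theorem convex_of_le {O : ValuationSubring K} (h : natO ≤ O) {x y : K} (hx : 0 ≤ x) (hxy : x ≤ y)
    (hy : y ∈ O) : x ∈ O := by
  rcases hx.eq_or_lt with rfl | hx0
  · exact O.zero_mem
  · have hy0 : 0 < y := hx0.trans_le hxy
    have h1 : x / y ∈ O := h (mem_natO.2 ⟨1, by
      rw [abs_of_nonneg (div_nonneg hx hy0.le), Nat.cast_one]
      exact (div_le_one hy0).2 hxy⟩)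
    have h2 : x = x / y * y := by field_simp
    rw [h2]
    exact O.mul_mem _ _ h1 hy

/-- squares of multiples are dense in the bounded positive elements -/
theorem exists_sq_near {s : K} {n : ℕ} (h1 : s ≤ n) (h2 : 1 ≤ n * s) :
    ∃ r : K, s ≤ r * r ∧ r * r ≤ s + s := by
  have hn0 : 0 < n := by
    rcases Nat.eq_zero_or_pos n with rfl | h
    · norm_num at h2
    · exact h
  have hn : (0 : K) < n := by exact_mod_cast hn0
  have hn1 : (1 : K) ≤ n := by exact_mod_cast hn0
  have hex : ∃ k : ℕ, s ≤ ((6 / 5 : K) ^ k / n) * ((6 / 5 : K) ^ k / n) := by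
    refine ⟨5 * n ^ 3, ?_⟩
    have h3 : (1 : K) + ((5 * n ^ 3 : ℕ) : K) * (1 / 5) ≤ (1 + 1 / 5) ^ (5 * n ^ 3) :=
      one_add_mul_le_pow (by norm_num) _
    have h4 : (1 + 1 / 5 : K) = 6 / 5 := by norm_num
    rw [h4] at h3
    push_cast at h3
    have h5 : (n : K) ^ 3 ≤ (6 / 5 : K) ^ (5 * n ^ 3) := by linarith
    have h6 : (n : K) ≤ (6 / 5 : K) ^ (5 * n ^ 3) / n := by
      rw [le_div_iff₀ hn]
      nlinarith [mul_le_mul hn1 hn1 (by norm_num) (Nat.cast_nonneg n)]
    calc s ≤ n := h1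
      _ = n * 1 := (mul_one _).symm
      _ ≤ n * n := by gcongr
      _ ≤ _ := by gcongr
  classical
  obtain ⟨k, hk, hmin⟩ : ∃ k : ℕ, s ≤ ((6 / 5 : K) ^ k / n) * ((6 / 5 : K) ^ k / n) ∧
      ∀ j < k, ¬ s ≤ ((6 / 5 : K) ^ j / n) * ((6 / 5 : K) ^ j / n) :=
    ⟨Nat.find hex, Nat.find_spec hex, fun j hj => Nat.find_min hex hj⟩
  refine ⟨_, hk, ?_⟩
  rcases Nat.eq_zero_or_pos k with rfl | hkpos
  · rw [pow_zero]
    have h3 : (1 : K) / n ≤ s := by
      rw [div_le_iff₀ hn, mul_comm]
      exact h2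
    have h4 : (1 : K) / n ≤ 1 := (div_le_one hn).2 hn1
    have h5 : (0 : K) < 1 / n := by positivity
    nlinarith
  · obtain ⟨j, rfl⟩ : ∃ j, k = j + 1 := ⟨k - 1, by omega⟩
    have h3 := not_le.1 (hmin j (Nat.lt_succ_self j))
    have h4 : (6 / 5 : K) ^ (j + 1) / n = 6 / 5 * ((6 / 5 : K) ^ j / n) := by
      rw [pow_succ]
      ring
    rw [h4]
    have h5 : 0 < (6 / 5 : K) ^ j / n := by positivity
    nlinarith [mul_pos h5 h5]

/-- If all values are divisible by two, then the positive elements are squares up to a factor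
between one half and one. -/
theorem tight_of_divisible (h : ∀ t : K, ¬ NotDivisible (natO : ValuationSubring K) 2 t) (x : K)
    (hx : 0 ≤ x) : ∃ y, x ≤ y * y ∧ y * y ≤ x + x := by
  rcases hx.eq_or_lt with rfl | hx0
  · exact ⟨0, by simp, by simp⟩
  · have h1 := h x
    rw [NotDivisible] at h1
    push Not at h1
    obtain ⟨y, hy⟩ := h1
    have hy0 : y ≠ 0 := by
      rintro rfl
      rw [map_zero, zero_pow (by norm_num)] at hy
      exact hx0.ne' ((Valuation.zero_iff _).1 hy)
    have hyy : 0 < y * y := mul_self_pos.2 hy0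
    have e1 : (natO : ValuationSubring K).valuation (x / (y * y)) = 1 := by
      rw [map_div₀, hy, map_mul, sq, div_self]
      exact mul_ne_zero ((Valuation.ne_zero_iff _).2 hy0) ((Valuation.ne_zero_iff _).2 hy0)
    have e2 : (natO : ValuationSubring K).valuation ((x / (y * y))⁻¹) = 1 := by
      rw [map_inv₀, e1, inv_one]
    obtain ⟨m, hm⟩ := mem_natO.1 ((ValuationSubring.valuation_le_one_iff _ _).1 e1.le)
    obtain ⟨n, hn⟩ := mem_natO.1 ((ValuationSubring.valuation_le_one_iff _ _).1 e2.le)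
    have hpos : 0 < x / (y * y) := div_pos hx0 hyy
    rw [abs_of_pos hpos] at hm
    rw [abs_of_pos (inv_pos.2 hpos)] at hn
    obtain ⟨r, hr1, hr2⟩ := exists_sq_near (s := x / (y * y)) (n := m + n) (by
      push_cast
      have := Nat.cast_nonneg (α := K) n
      linarith) (by
      have h3 : (1 : K) ≤ n * (x / (y * y)) := by
        calc (1 : K) = (x / (y * y))⁻¹ * (x / (y * y)) := (inv_mul_cancel₀ hpos.ne').symm
          _ ≤ n * (x / (y * y)) := by gcongr
      have h4 : (0 : K) ≤ m * (x / (y * y)) := by positivity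
      push_cast
      linarith)
    refine ⟨r * y, ?_, ?_⟩
    · have h5 : x = x / (y * y) * (y * y) := by field_simp
      rw [h5]
      calc x / (y * y) * (y * y) ≤ r * r * (y * y) := by gcongr
        _ = _ := by ring
    · have h5 : x / (y * y) * (y * y) = x := by field_simp
      calc r * y * (r * y) = r * r * (y * y) := by ring
        _ ≤ (x / (y * y) + x / (y * y)) * (y * y) := by gcongr
        _ = x + x := by rw [add_mul, h5]

theorem one_add_sq_inv_mem {O : ValuationSubring K} (h : natO ≤ O) (a : K) :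
    (a ^ 2 + 1)⁻¹ ∈ O := by
  refine h (mem_natO.2 ⟨1, ?_⟩)
  have h1 : 1 ≤ a ^ 2 + 1 := by nlinarith [sq_nonneg a]
  rw [abs_of_pos (by positivity), Nat.cast_one]
  exact inv_le_one_of_one_le₀ h1

end

theorem hasSepExt_two {k : Type} [Field k] (h : ∀ x : k, x ^ 2 + 1 ≠ 0) (h2 : (2 : k) ≠ 0) :
    HasSepExt k 2 := by
  have hdeg : (X ^ 2 + 1 : k[X]).natDegree = 2 := by
    have : (X ^ 2 + 1 : k[X]) = X ^ 2 + C 1 := by simp
    rw [this]
    exact natDegree_X_pow_add_C
  have hm : (X ^ 2 + 1 : k[X]).Monic := by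
    have : (X ^ 2 + 1 : k[X]) = X ^ 2 + C 1 := by simp
    rw [this]
    exact monic_X_pow_add_C _ (by norm_num)
  have hirr : Irreducible (X ^ 2 + 1 : k[X]) := by
    apply Polynomial.irreducible_of_degree_le_three_of_not_isRoot
    · rw [hdeg]
      decide
    · intro x hx
      rw [IsRoot.def] at hx
      simp only [eval_add, eval_pow, eval_X, eval_one] at hx
      exact h x hx
  have hsep : (X ^ 2 + 1 : k[X]).Separable := by
    have h3 : (X ^ 2 + 1 : k[X]) = X ^ 2 - C (-1) := by simp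
    rw [h3]
    exact separable_X_pow_sub_C _ (by exact_mod_cast h2) (by simp)
  haveI : Fact (Irreducible (X ^ 2 + 1 : k[X])) := ⟨hirr⟩
  refine ⟨AdjoinRoot (X ^ 2 + 1 : k[X]), inferInstance, inferInstance,
    isSeparable_adjoinRoot hirr hsep, ?_⟩
  rw [Module.finrank_eq_card_basis (AdjoinRoot.powerBasisAux' hm), Fintype.card_fin, hdeg]

section

variable {K : Type} [Field K] [LinearOrder K] [IsStrictOrderedRing K]

theorem hasSepExt_natO : HasSepExt (IsLocalRing.ResidueField (natO : ValuationSubring K)) 2 := by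
  apply hasSepExt_two
  · intro x hx
    obtain ⟨a, rfl⟩ := IsLocalRing.residue_surjective x
    rw [← map_pow, ← map_one (IsLocalRing.residue _), ← map_add,
      IsLocalRing.residue_eq_zero_iff, IsLocalRing.mem_maximalIdeal, mem_nonunits_iff] at hx
    apply hx
    have h1 : ((a : K) ^ 2 + 1) ≠ 0 := by positivity
    exact IsUnit.of_mul_eq_one ⟨((a : K) ^ 2 + 1)⁻¹, one_add_sq_inv_mem le_rfl _⟩
      (Subtype.ext (mul_inv_cancel₀ h1))
  · intro hx
    have h3 : (2 : IsLocalRing.ResidueField (natO : ValuationSubring K)) =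
        IsLocalRing.residue _ (2 : (natO : ValuationSubring K)) := (map_ofNat _ 2).symm
    rw [h3, IsLocalRing.residue_eq_zero_iff, IsLocalRing.mem_maximalIdeal, mem_nonunits_iff] at hx
    apply hx
    refine IsUnit.of_mul_eq_one ⟨(2 : K)⁻¹, mem_natO.2 ⟨1, ?_⟩⟩ (Subtype.ext ?_)
    · rw [abs_of_pos (by positivity)]
      norm_num
    · exact mul_inv_cancel₀ (two_ne_zero)

end

end Pool.Agent.K4H89.FR
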