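import Pool.Agent.K4H89.FR.Main

/-!
# The Pythagoras number of NIP fields without definable valuations
-/

set_option autoImplicit false

namespace Pool.Agent.K4H89.FR

open FirstOrder FirstOrder.Language FirstOrder.Ring Polynomial Filter
open Pool.Agent.R614.NF (FieldOrder)
open Pool.Agent.R492.DV (Tight ordSet_of ofSet ofSet_nonneg ord_ext)
open Pool.Agent.W882.Nip3 Pool.Agent.K4H89.NV Pool.Agent.K4H89.J

/-- no valuation ring besides the field itself is definable -/
def NoDef (K : Type) [Field K] [CompatibleRing K] : Prop :=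
  ∀ O : ValuationSubring K, NV.Definable O → O = ⊤

theorem tight_of_noDef {K : Type} [Field K] [CompatibleRing K] (hK : FewPlaces K) (h : NoDef K)
    (o : FieldOrder K) : Tight o := by
  by_contra hnt
  obtain ⟨O, h1, -, h2⟩ := convex_of_not_tight hK o hnt
  exact h1 (h O h2)

theorem noDef_congr {K K' : Type} [Field K] [CompatibleRing K] [Field K'] [CompatibleRing K']
    (h : FirstOrder.Language.ring.ElementarilyEquivalent K K') (hn : NoDef K) : NoDef K' := by
  intro O hO
  by_contra hne
  obtain ⟨O', h1, h2⟩ := definable_transfer h ⟨O, hne, hO⟩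
  exact h1 (hn O' h2)

theorem not_neg_one_of_unb {F : Type} [Field F] (h : Unb F) : ¬ IsSumSq (-1 : F) := by
  intro hneg
  obtain ⟨n, hn⟩ := sumOf_of_isSumSq hneg
  obtain ⟨y, hy⟩ := hn
  obtain ⟨x, -, hx⟩ := h (n + 1)
  apply hx
  by_cases h2 : (2 : F) = 0
  · obtain ⟨z, hz, hx'⟩ := h (n + 1)
    exfalso
    -- in characteristic two sums of squares are squares
    apply hx'
    have h3 : ∀ z : F, IsSumSq z → ∃ w, z = w ^ 2 := by
      intro z hz
      induction hz with
      | zero => exact ⟨0, by simp⟩
      | sq_add a _ ih =>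
        obtain ⟨w, rfl⟩ := ih
        exact ⟨a + w, by linear_combination (-(a * w)) * h2⟩
    obtain ⟨w, rfl⟩ := h3 z hz
    refine SumOf.mono (m := 1) (by omega) ⟨fun _ => w, by simp⟩
  · refine ⟨Fin.cons ((x + 1) / 2) (fun i => (x - 1) / 2 * y i), ?_⟩
    rw [Fin.sum_univ_succ]
    simp only [Fin.cons_zero, Fin.cons_succ, mul_pow]
    rw [← Finset.mul_sum, ← hy]
    field_simp
    ring

/-- the ordering of the ultrapower -/
noncomputable def starO {K : Type} [Field K] [CompatibleRing K] (o : FieldOrder K) (h : Tight o) :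
    FieldOrder (UP K) := ofSet (ordSet_star (ordSet_of o h))

theorem starO_inj {K : Type} [Field K] [CompatibleRing K] {o o' : FieldOrder K} {h : Tight o}
    {h' : Tight o'} (he : starO o h = starO o' h') : o = o' := by
  apply ord_ext
  apply star_injective
  ext a
  have h1 := ofSet_nonneg (ordSet_star (ordSet_of o h)) a
  have h2 := ofSet_nonneg (ordSet_star (ordSet_of o' h')) a
  rw [← h1, ← h2]
  show (starO o h).le 0 a ↔ (starO o' h').le 0 a
  rw [he]

theorem nonneg_of_isSumSq {K : Type} [Field K] (o : FieldOrder K) {x : K} (hx : IsSumSq x) :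
    o.le 0 x := by
  letI := o.toLinearOrder
  haveI := o.ord
  exact hx.nonneg

theorem grow_step {K : Type} [Field K] [CompatibleRing K] (hK : FewPlaces K) (hn : NoDef K)
    (hu : Unb K) {k : ℕ} (e : Fin k → FieldOrder K) (he : Function.Injective e) :
    ∃ e' : Fin (k + 1) → FieldOrder (UP K), Function.Injective e' := by
  choose a ha hna using hu
  have h1 : ¬ IsSumSq (mk a) := by
    intro h
    obtain ⟨n, hn⟩ := sumOf_of_isSumSq h
    have h2 := sumOf_mk hn
    have h3 : ∀ᶠ m in ((hyperfilter ℕ : Ultrafilter ℕ) : Filter ℕ), n ≤ m :=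
      (Nat.hyperfilter_le_atTop (eventually_ge_atTop n))
    obtain ⟨m, hm1, hm2⟩ := (h2.and h3).exists
    exact hna m (hm1.mono hm2)
  have hu' : Unb K := fun n => ⟨a n, ha n, hna n⟩
  obtain ⟨o, ho⟩ := exists_neg_order (not_neg_one_of_unb (unb_up hu')) h1
  refine ⟨Fin.cons o fun i => starO (e i) (tight_of_noDef hK hn (e i)), ?_⟩
  rw [Fin.cons_injective_iff]
  refine ⟨?_, fun i j hij => he (starO_inj hij)⟩
  rintro ⟨i, hi⟩
  apply ho
  rw [← hi]
  have h5 := ofSet_nonneg (ordSet_star (ordSet_of (e i) (tight_of_noDef hK hn (e i)))) (mk a)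
  exact h5.2 (mem_star.2 (Eventually.of_forall fun n => nonneg_of_isSumSq (e i) (ha n)))

theorem grow {K : Type} [Field K] [CompatibleRing K] (hK : FewPlaces K) (hn : NoDef K)
    (hu : Unb K) (k : ℕ) : ∃ (K' : Type) (_ : Field K') (_ : CompatibleRing K'),
      FirstOrder.Language.ring.ElementarilyEquivalent K K' ∧ Unb K' ∧
      ∃ e : Fin k → FieldOrder K', Function.Injective e := by
  induction k with
  | zero =>
    exact ⟨K, inferInstance, inferInstance, Pool.Agent.R492.DV.same_self, hu,
      fun i => i.elim0, fun i => i.elim0⟩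
  | succ k ih =>
    obtain ⟨K', _, _, h1, h2, e, he⟩ := ih
    have h3 : FirstOrder.Language.ring.ElementarilyEquivalent K (UP K') := h1.trans up_equiv'
    exact ⟨UP K', inferInstance, inferInstance, h3, unb_up h2,
      grow_step (hK.congr h1) (noDef_congr h1 hn) h2 e he⟩

/-- fields without definable valuations: few orderings and finite Pythagoras number -/
theorem noDef_main {K : Type} [Field K] [CompatibleRing K]
    (hK : NIPField K ∨ (∃ n, NIPnField n K) ∨ NTP2Field K) (hn : NoDef K) :
    Finite (FieldOrder K) ∧ ∃ n : ℕ, ∀ x : K, IsSumSq x → SumOf n x := by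
  obtain ⟨N, hN⟩ := (Pool.Agent.R492.DV.ord_main Pool.Agent.R492.DV.kueker K hK).2.2
  have hfin : ∀ (K' : Type) [Field K'] [CompatibleRing K'],
      FirstOrder.Language.ring.ElementarilyEquivalent K K' →
      (Set.univ : Set (FieldOrder K')).encard < N := by
    intro K' _ _ he
    have h1 := hN K' he
    have h2 : {o : FieldOrder K' | Tight o} = Set.univ := by
      ext o
      simpa using tight_of_noDef ((fewPlaces_of K hK).congr he) (noDef_congr he hn) o
    rwa [h2] at h1
  refine ⟨?_, ?_⟩
  · have h1 := hfin K Pool.Agent.R492.DV.same_self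
    exact Set.finite_univ_iff.1 (Set.finite_of_encard_le_coe h1.le)
  · by_contra hcon
    push Not at hcon
    obtain ⟨K', _, _, h1, -, e, he⟩ := grow (fewPlaces_of K hK) hn hcon N
    have h2 := hfin K' h1
    have h3 : (N : ℕ∞) ≤ (Set.univ : Set (FieldOrder K')).encard := by
      calc (N : ℕ∞) = (Set.range e).encard := by
            rw [← Set.image_univ, he.encard_image, Set.encard_univ]
            simp
        _ ≤ _ := Set.encard_le_encard (Set.subset_univ _)
    exact absurd h2 (not_lt.2 h3)

end Pool.Agent.K4H89.FR
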