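import Pool.Agent.K4H89.FR.Pyth

/-!
# Stable fields are not formally real
-/

set_option autoImplicit false

namespace Pool.Agent.K4H89.FR

open FirstOrder FirstOrder.Language FirstOrder.Ring Set
open Pool.Agent.R614.NF (FieldOrder)
open Pool.Agent.R492.DS (StableField)
open Pool.Agent.W882.Nip3 Pool.Agent.K4H89.NV Pool.Agent.K4H89.J

theorem not_stable_of_ds {K : Type} [Field K] [CompatibleRing K]
    {S : Set (Fin 1 ⊕ Fin 1 → K)} (hS : DS S) (a b : ℕ → K)
    (h : ∀ i j, Sum.elim (fun _ => a i) (fun _ => b j) ∈ S ↔ i < j) : ¬ StableField K := by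
  intro hK
  obtain ⟨A, -, hA⟩ := definable_iff_finitely_definable.1 hS
  obtain ⟨φ, hφ⟩ := definable_iff_exists_formula_sum.1 hA
  let e : (A : Set K) ≃ Fin A.card := A.equivFin
  refine hK 1 (1 + A.card) (φ.relabel
    (Sum.elim (fun x => Sum.inr (Fin.natAdd 1 (e x))) (Sum.map id (Fin.castAdd A.card)))) ?_
  intro n
  refine ⟨fun i _ => a i, fun j => Fin.append (fun _ => b j) (fun j => (e.symm j : K)),
    fun i j => ?_⟩
  rw [show (i < j) ↔ ((i : ℕ) < j) from Iff.rfl, ← h, hφ, Formula.realize_relabel]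
  simp only [Set.mem_ofPred_eq]
  rw [iff_iff_eq]
  congr 1
  funext x
  rcases x with x | x | x
  · simp
  · simp
  · simp

theorem not_definableOrder {K : Type} [Field K] [CompatibleRing K] (hK : StableField K)
    (o : FieldOrder K) : ¬ DefinableOrder o := by
  intro ho
  letI := o.toLinearOrder
  haveI := o.ord
  have hdef : DefOrd K := ds_of_formula (S := {x : K | o.le 0 x}) ho
  have h1 : DS {v : Fin 1 ⊕ Fin 1 → K | v (Sum.inl 0) < v (Sum.inr 0)} :=
    DS.lt hdef (DF.proj _) (DF.proj _)
  refine not_stable_of_ds h1 (fun n => (n : K)) (fun n => (n : K)) (fun i j => ?_) hK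
  simp

theorem noDef_of_stable {K : Type} [Field K] [CompatibleRing K] (hK : StableField K) :
    NoDef K := by
  intro O hO
  by_contra hne
  obtain ⟨z, hz⟩ : ∃ z : K, z ∉ O := by
    by_contra hcon
    push Not at hcon
    exact hne (by ext x; exact ⟨fun _ => trivial, fun _ => hcon x⟩)
  have hz0 : z ≠ 0 := by
    rintro rfl
    exact hz O.zero_mem
  exact Pool.Agent.R492.DS.not_definable hK O (inv_ne_zero hz0)
    ((O.mem_or_inv_mem z).resolve_left hz) (by rwa [inv_inv]) hO

/-- stable fields are not formally real -/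
theorem isSumSq_of_stable {K : Type} [Field K] [CompatibleRing K] (hK : StableField K) :
    IsSumSq (-1 : K) := by
  by_contra hne
  obtain ⟨o, -⟩ := exists_neg_order hne hne
  rcases dichotomy (Or.inl (Pool.Agent.R492.DS.nip_of_stable hK)) o with ⟨O, h1, -, h2⟩ | ⟨h1, -⟩
  · exact h1 (noDef_of_stable hK O h2)
  · exact not_definableOrder hK o h1

theorem not_branching_of_stable {K : Type} [Field K] [CompatibleRing K] (hK : StableField K)
    (K' : Type) [Field K'] [CompatibleRing K']
    (he : FirstOrder.Language.ring.ElementarilyEquivalent K K') (O : ValuationSubring K') (ℓ : ℕ)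
    (hℓ : ℓ.Prime) : ¬ Branching O ℓ := by
  intro hO
  obtain ⟨O', -, h1, h2⟩ := coarse_branching K'
    ((fewPlaces_of K (Or.inl (Pool.Agent.R492.DS.nip_of_stable hK))).congr he) O hℓ hO
  exact h1 (noDef_congr he (noDef_of_stable hK) O' h2)

end Pool.Agent.K4H89.FR
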