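import Pool.Agent.K4H89.FR.Def
import Pool.Agent.R492.DV.OrdFin

/-!
# Ultrapowers of fields and sums of squares
-/

set_option autoImplicit false

namespace Pool.Agent.K4H89.FR

open FirstOrder FirstOrder.Language FirstOrder.Ring Filter
open Pool.Agent.R614.NF (FieldOrder)

section

variable (K : Type) [Field K] [CompatibleRing K]

/-- the ultrapower -/
@[reducible] def UP : Type := ((hyperfilter ℕ : Ultrafilter ℕ) : Filter ℕ).Product (fun _ : ℕ => K)

variable {K}

/-- the class of a sequence -/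
noncomputable def mk (x : ℕ → K) : UP K := (x : ((hyperfilter ℕ : Ultrafilter ℕ) : Filter ℕ).Product (fun _ : ℕ => K))

theorem mk_surj (a : UP K) : ∃ x : ℕ → K, mk x = a := Quotient.exists_rep a

theorem mk_eq {x y : ℕ → K} :
    mk x = mk y ↔ ∀ᶠ n in ((hyperfilter ℕ : Ultrafilter ℕ) : Filter ℕ), x n = y n := Quotient.eq''

theorem up_equiv : FirstOrder.Language.ring.ElementarilyEquivalent K (UP K) := by
  rw [elementarilyEquivalent_iff]
  intro φ
  rw [Ultraproduct.sentence_realize]
  simp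

instance up_model : FirstOrder.Language.Theory.field.Model (UP K) := by
  have h1 : FirstOrder.Language.Theory.field.Model K := inferInstance
  exact (up_equiv (K := K)).theory_model_iff.1 h1

noncomputable instance up_field : Field (UP K) := FirstOrder.Field.fieldOfModelField (UP K)

noncomputable instance up_comp : CompatibleRing (UP K) :=
  FirstOrder.Field.compatibleRingOfModelField (UP K)

theorem up_equiv' : FirstOrder.Language.ring.ElementarilyEquivalent K (UP K) := up_equiv

theorem mk_add (x y : ℕ → K) : mk x + mk y = mk (fun n => x n + y n) := by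
  have h := Ultraproduct.funMap_cast (L := FirstOrder.Language.ring) (M := fun _ : ℕ => K)
    (u := hyperfilter ℕ) addFunc ![x, y]
  have h1 : (fun i => ((![x, y] i : ℕ → K) :
      ((hyperfilter ℕ : Ultrafilter ℕ) : Filter ℕ).Product (fun _ : ℕ => K))) =
      ![mk x, mk y] := by
    funext i
    fin_cases i <;> rfl
  rw [h1] at h
  have h2 := CompatibleRing.funMap_add (R := UP K) ![mk x, mk y]
  rw [show (mk x + mk y) = ![mk x, mk y] 0 + ![mk x, mk y] 1 from rfl, ← h2]
  refine h.trans ?_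
  simp only [CompatibleRing.funMap_add]
  rfl

theorem mk_mul (x y : ℕ → K) : mk x * mk y = mk (fun n => x n * y n) := by
  have h := Ultraproduct.funMap_cast (L := FirstOrder.Language.ring) (M := fun _ : ℕ => K)
    (u := hyperfilter ℕ) mulFunc ![x, y]
  have h1 : (fun i => ((![x, y] i : ℕ → K) :
      ((hyperfilter ℕ : Ultrafilter ℕ) : Filter ℕ).Product (fun _ : ℕ => K))) =
      ![mk x, mk y] := by
    funext i
    fin_cases i <;> rfl
  rw [h1] at h
  have h2 := CompatibleRing.funMap_mul (R := UP K) ![mk x, mk y]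
  rw [show (mk x * mk y) = ![mk x, mk y] 0 * ![mk x, mk y] 1 from rfl, ← h2]
  refine h.trans ?_
  simp only [CompatibleRing.funMap_mul]
  rfl

theorem mk_neg (x : ℕ → K) : -mk x = mk (fun n => -x n) := by
  have h := Ultraproduct.funMap_cast (L := FirstOrder.Language.ring) (M := fun _ : ℕ => K)
    (u := hyperfilter ℕ) negFunc ![x]
  have h1 : (fun i => ((![x] i : ℕ → K) :
      ((hyperfilter ℕ : Ultrafilter ℕ) : Filter ℕ).Product (fun _ : ℕ => K))) =
      ![mk x] := by
    funext i
    fin_cases i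
    rfl
  rw [h1] at h
  have h2 := CompatibleRing.funMap_neg (R := UP K) ![mk x]
  rw [show (-mk x) = -(![mk x] 0) from rfl, ← h2]
  refine h.trans ?_
  simp only [CompatibleRing.funMap_neg]
  rfl

theorem mk_zero : (0 : UP K) = mk (fun _ => (0 : K)) := by
  have h := mk_add (fun _ => (0 : K)) (fun _ => 0)
  simp only [add_zero] at h
  exact (left_eq_add.1 h.symm).symm

theorem mk_one : (1 : UP K) = mk (fun _ => (1 : K)) := by
  have h := mk_mul (fun _ => (1 : K)) (fun _ => 1)
  simp only [mul_one] at h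
  have h0 : mk (fun _ => (1 : K)) ≠ 0 := by
    rw [mk_zero, Ne, mk_eq]
    intro h1
    obtain ⟨n, hn⟩ := h1.exists
    exact one_ne_zero hn
  exact (mul_left_cancel₀ h0 (by rw [h, mul_one])).symm

theorem mk_sum {k : ℕ} (y : Fin k → ℕ → K) : ∑ i, mk (y i) = mk (fun n => ∑ i, y i n) := by
  induction k with
  | zero => simpa using mk_zero
  | succ k ih =>
    rw [Fin.sum_univ_castSucc, ih, mk_add]
    simp only [Fin.sum_univ_castSucc]

/-- the diagonal embedding -/
noncomputable def diag : K →+* UP K where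
  toFun x := mk fun _ => x
  map_one' := mk_one.symm
  map_zero' := mk_zero.symm
  map_mul' _ _ := (mk_mul _ _).symm
  map_add' _ _ := (mk_add _ _).symm

/-! ### Sums of squares -/

/-- `x` is a sum of `n` squares -/
def SumOf {F : Type} [Field F] (n : ℕ) (x : F) : Prop := ∃ y : Fin n → F, x = ∑ i, y i ^ 2

theorem SumOf.succ {F : Type} [Field F] {n : ℕ} {x : F} (h : SumOf n x) : SumOf (n + 1) x := by
  obtain ⟨y, rfl⟩ := h
  exact ⟨Fin.cons 0 y, by simp [Fin.sum_univ_succ]⟩

theorem SumOf.mono {F : Type} [Field F] {m n : ℕ} (hmn : m ≤ n) {x : F} (h : SumOf m x) :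
    SumOf n x := by
  induction n, hmn using Nat.le_induction with
  | base => exact h
  | succ n _ ih => exact ih.succ

theorem sumOf_of_isSumSq {F : Type} [Field F] {x : F} (h : IsSumSq x) : ∃ n, SumOf n x := by
  induction h with
  | zero => exact ⟨0, fun i => i.elim0, by simp⟩
  | sq_add a _ ih =>
    obtain ⟨n, y, rfl⟩ := ih
    exact ⟨n + 1, Fin.cons a y, by simp [Fin.sum_univ_succ, sq]⟩

theorem isSumSq_of_sumOf {F : Type} [Field F] {n : ℕ} {x : F} (h : SumOf n x) : IsSumSq x := by
  obtain ⟨y, rfl⟩ := h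
  exact IsSumSq.sum fun i _ => IsSquare.isSumSq ⟨y i, sq _⟩

theorem sumOf_mk {n : ℕ} {x : ℕ → K} (h : SumOf n (mk x)) :
    ∀ᶠ k in ((hyperfilter ℕ : Ultrafilter ℕ) : Filter ℕ), SumOf n (x k) := by
  obtain ⟨y, hy⟩ := h
  choose z hz using fun i => mk_surj (y i)
  have h1 : ∑ i, y i ^ 2 = mk (fun k => ∑ i, z i k ^ 2) := by
    rw [← mk_sum]
    refine Finset.sum_congr rfl fun i _ => ?_
    rw [← hz i, sq, mk_mul]
    simp only [sq]
  rw [h1, mk_eq] at hy
  exact hy.mono fun k hk => ⟨fun i => z i k, hk⟩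

/-- there is no bound for the number of squares -/
def Unb (F : Type) [Field F] : Prop := ∀ n : ℕ, ∃ x : F, IsSumSq x ∧ ¬ SumOf n x

theorem unb_up (h : Unb K) : Unb (UP K) := by
  intro n
  obtain ⟨x, hx, hn⟩ := h n
  obtain ⟨m, y, hy⟩ := sumOf_of_isSumSq hx
  have hx' : IsSumSq (diag x) := isSumSq_of_sumOf ⟨fun i => diag (y i), by
    rw [hy, map_sum]
    simp only [map_pow]⟩
  refine ⟨diag x, hx', fun hs => ?_⟩
  obtain ⟨k, hk⟩ := (sumOf_mk (x := fun _ => x) hs).exists
  exact hn hk

/-! ### Orderings -/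

/-- the extension of a set -/
def star (S : Set K) : Set (UP K) :=
  {a | ∃ x, mk x = a ∧ ∀ᶠ n in ((hyperfilter ℕ : Ultrafilter ℕ) : Filter ℕ), x n ∈ S}

theorem mem_star {S : Set K} {x : ℕ → K} :
    mk x ∈ star S ↔ ∀ᶠ n in ((hyperfilter ℕ : Ultrafilter ℕ) : Filter ℕ), x n ∈ S := by
  constructor
  · rintro ⟨y, hy, h⟩
    filter_upwards [mk_eq.1 hy, h] with n h1 h2
    rwa [← h1]
  · intro h
    exact ⟨x, rfl, h⟩

open Pool.Agent.R492.DV

theorem ordSet_star {S : Set K} (h : OrdSet S) : OrdSet (star S) := by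
  refine ⟨fun a ha b hb => ?_, fun a ha b hb => ?_, fun a => ?_, fun a ha ha' => ?_, fun a ha => ?_⟩
  · obtain ⟨x, rfl⟩ := mk_surj a
    obtain ⟨y, rfl⟩ := mk_surj b
    rw [mem_star] at ha hb
    rw [mk_add, mem_star]
    filter_upwards [ha, hb] with n h1 h2
    exact h.add _ h1 _ h2
  · obtain ⟨x, rfl⟩ := mk_surj a
    obtain ⟨y, rfl⟩ := mk_surj b
    rw [mem_star] at ha hb
    rw [mk_mul, mem_star]
    filter_upwards [ha, hb] with n h1 h2
    exact h.mul _ h1 _ h2
  · obtain ⟨x, rfl⟩ := mk_surj a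
    rw [mk_neg, mem_star, mem_star, ← Ultrafilter.eventually_or]
    exact Eventually.of_forall fun n => h.total _
  · obtain ⟨x, rfl⟩ := mk_surj a
    rw [mk_neg] at ha'
    rw [mem_star] at ha ha'
    rw [mk_zero, mk_eq]
    filter_upwards [ha, ha'] with n h1 h2
    exact h.anti _ h1 h2
  · obtain ⟨x, rfl⟩ := mk_surj a
    rw [mem_star] at ha
    have h1 : ∀ n, ∃ y, x n ∈ S → y * y + -(x n) ∈ S ∧ x n + x n + -(y * y) ∈ S := by
      intro n
      by_cases hn : x n ∈ S
      · obtain ⟨y, hy⟩ := h.sq _ hn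
        exact ⟨y, fun _ => hy⟩
      · exact ⟨0, fun h => absurd h hn⟩
    choose y hy using h1
    refine ⟨mk y, ?_, ?_⟩
    · rw [mk_mul, mk_neg, mk_add, mem_star]
      filter_upwards [ha] with n h1
      exact (hy n h1).1
    · rw [mk_mul, mk_neg, mk_add, mk_add, mem_star]
      filter_upwards [ha] with n h1
      exact (hy n h1).2

theorem star_injective {S S' : Set K} (h : star S = star S') : S = S' := by
  ext x
  have h1 : (mk fun _ => x) ∈ star S ↔ (mk fun _ => x) ∈ star S' := by rw [h]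
  rw [mem_star, mem_star] at h1
  simpa using h1

end

end Pool.Agent.K4H89.FR
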